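import Mathlib
import Pool.Agent.H55.Unif

/-! Under CH, monochromatic uniformization on an Aronszajn tree gives a stationary antichain. -/

namespace Pool.Agent.Results.MP_807794_lc.StatAntichain

open Set
open Cardinal hiding univ

universe u

/-- the well-order `ω₁` of the countable ordinals -/
abbrev W : Type := (ℵ_ 1 : Cardinal.{0}).ord.ToType

/-- the level `T_α`: nodes whose set of predecessors has order type `α` -/
def level (T : Type u) [PartialOrder T] (α : W) : Set T := {t | Nonempty (Iio t ≃o Iio α)}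

/-- Aronszajn trees: height `ω₁`, countable levels, no uncountable chain -/
def Aronszajn (T : Type u) [PartialOrder T] : Prop :=
  (∀ t : T, ∃ α, t ∈ level T α) ∧ (∀ α, (level T α).Nonempty) ∧ (∀ α, (level T α).Countable) ∧
    ∀ B : Set T, IsChain (· ≤ ·) B → B.Countable

/-- non-empty, downward closed and pruned -/
def Subtree {T : Type u} [PartialOrder T] (S : Set T) : Prop :=
  S.Nonempty ∧ IsLowerSet S ∧ ∀ s ∈ S, ∀ α, ∃ β, α ≤ β ∧ ∃ t ∈ S, s ≤ t ∧ t ∈ level T β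

/-- ladder systems -/
def Ladder (C : W → Set W) : Prop :=
  ∀ α, Order.IsSuccLimit α →
    C α ⊆ Iio α ∧ (∀ β < α, ∃ ξ ∈ C α, β ≤ ξ) ∧ Nonempty (C α ≃o ℕ)

/-- every monochromatic `ω`-colouring of `C` (with colour `f α` on `C α`) has a
`T`-uniformization -/
def Unif (T : Type u) [PartialOrder T] (C : W → Set W) : Prop :=
  ∀ f : W → ℕ, ∃ S : Set T, Subtree S ∧ ∃ φ : S → ℕ,
    ∀ α, Order.IsSuccLimit α → ∀ s ∈ S, s ∈ level T α →
      {ξ ∈ C α | ∃ t : S, t.1 < s ∧ t.1 ∈ level T ξ ∧ φ t ≠ f α}.Finite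

open Pool.Agent.H55

theorem result (CH : (2 : Cardinal.{0}) ^ ℵ₀ = ℵ_ 1) (T : Type u) [PartialOrder T]
    (hT : Aronszajn T) (C : W → Set W) (hC : Ladder C) (hU : Unif T C) :
    ∃ A : Set T, IsAntichain (· ≤ ·) A ∧ IsStationary {α | ∃ a ∈ A, a ∈ level T α} := by
  obtain ⟨ht, hl, hm, hs, -⟩ := TreeHt.exists_ht hT.1
  replace hl : ∀ t α, t ∈ level T α ↔ ht t = α := hl
  simp only [hl]
  refine Unif.core (CH ▸ cantor _) ht hm hs
    (fun α => (hT.2.2.1 α).mono fun t h => (hl _ _).2 h) C (fun α hα => ?_) fun f => ?_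
  · obtain ⟨h1, -, ⟨ψ⟩⟩ := hC α hα
    exact ⟨h1, infinite_coe_iff.1 (Infinite.of_surjective ψ ψ.surjective)⟩
  · obtain ⟨S, ⟨⟨s, hs⟩, h1, h2⟩, φ, h3⟩ := hU f
    simp only [hl] at h2 h3
    refine ⟨S, h1, fun α => ?_, φ, h3⟩
    obtain ⟨β, k1, t, k2, -, k3⟩ := h2 s hs α
    exact ⟨t, k2, k3 ▸ k1⟩

end Pool.Agent.Results.MP_807794_lc.StatAntichain
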